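import Pool.Agent.helper1.TW.SpecA

set_option autoImplicit false

open Complex MeasureTheory Set
open scoped ComplexConjugate

namespace Pool.Agent.TW

open Pool.Agent.ZT (VV gC Bn MC lamA muA hm Sqf)

/-- Comparison of negative powers. -/
theorem WIN_cmp (u w K σ : ℝ) (hu : 0 < u) (hw : 0 < w) (hK : 1 ≤ K) (h : u ≤ K * w) (h0 : 0 ≤ σ) (h2 : σ ≤ 2) :
    w ^ (-σ) ≤ K ^ 2 * u ^ (-σ) := by
  have hK0 : 0 < K := by linarith
  have h3 : w ^ (-σ) = K ^ σ * (K * w) ^ (-σ) := by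
    rw [Real.mul_rpow hK0.le hw.le, ← mul_assoc, ← Real.rpow_add hK0, add_neg_cancel, Real.rpow_zero, one_mul]
  rw [h3]
  have h4 : (K * w) ^ (-σ) ≤ u ^ (-σ) := Real.rpow_le_rpow_of_nonpos hu h (by linarith)
  have h5 : K ^ σ ≤ K ^ (2 : ℝ) := Real.rpow_le_rpow_of_exponent_le hK h2
  rw [Real.rpow_two] at h5
  exact mul_le_mul h5 h4 (Real.rpow_nonneg (by positivity) _) (by positivity)

theorem WIN_diff (N : ℝ) (hN : 1 ≤ N) (k : ℕ) : ((N + 1) ^ k - N ^ k) * N ≤ k * 2 ^ k * N ^ k := by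
  induction k with
  | zero => simp
  | succ k ih =>
    have h1 : 0 ≤ (N + 1) ^ k - N ^ k := sub_nonneg.2 (pow_le_pow_left₀ (by linarith) (by linarith) k)
    have e : ((N + 1) ^ (k + 1) - N ^ (k + 1)) * N = (N + 1) * (((N + 1) ^ k - N ^ k) * N) + N ^ (k + 1) := by ring
    rw [e]
    have h2 : (N + 1) * (((N + 1) ^ k - N ^ k) * N) ≤ (2 * N) * (k * 2 ^ k * N ^ k) :=
      mul_le_mul (by linarith) ih (mul_nonneg h1 (by linarith)) (by positivity)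
    have h3 : (1 : ℝ) ≤ 2 ^ (k + 1) := one_le_pow₀ (by norm_num)
    have h4 : 0 ≤ N ^ (k + 1) := by positivity
    have h5 : 1 * N ^ (k + 1) ≤ 2 ^ (k + 1) * N ^ (k + 1) := mul_le_mul_of_nonneg_right h3 h4
    have h6 : (2 * N) * (k * 2 ^ k * N ^ k) = k * 2 ^ (k + 1) * N ^ (k + 1) := by ring
    push_cast
    rw [h6] at h2
    linarith

/-- The combinatorial part. -/
theorem WIN_comb {ι : Type} (W : Finset ℕ) (om : ℕ → ℝ) (h0 : ∀ p, 0 ≤ om p) (X : ι → ℕ → ℂ)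
    (hX : ∀ i m, ‖X i m‖ ≤ 1) (T : ℕ → ℂ) (s1 : Finset ι) (F : ι → ℂ) (i : ι) (e S : ℝ) (hS : 0 ≤ S)
    (hT : ∀ p ∈ W, om p ≠ 0 → ‖T p - ∑ j ∈ s1, X j p * F j‖ ≤ e) (hF : ∀ j, ‖F j‖ ≤ S)
    (hrow : ∀ t : Finset ι, i ∉ t → t ⊆ s1 →
      ∑ j ∈ t, ‖∑ p ∈ W, ((om p : ℝ) : ℂ) * (conj (X i p) * X j p)‖ ≤ (∑ p ∈ W, om p) / 8)
    (hi : ∀ p ∈ W, om p ≠ 0 → ‖X i p‖ = 1) :
    ‖∑ p ∈ W, ((om p : ℝ) : ℂ) * (conj (X i p) * T p)‖ ≤ (∑ p ∈ W, om p) * (9 / 8 * S + e) ∧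
    (i ∈ s1 → (∑ p ∈ W, om p) * ‖F i‖ ≤ ‖∑ p ∈ W, ((om p : ℝ) : ℂ) * (conj (X i p) * T p)‖ +
      (∑ p ∈ W, om p) * (1 / 8 * S + e)) := by
  classical
  obtain ⟨P, hP⟩ : ∃ P, P = ∑ p ∈ W, om p := ⟨_, rfl⟩
  rw [← hP] at hrow ⊢
  have hP0 : 0 ≤ P := by
    rw [hP]
    exact Finset.sum_nonneg fun p _ => h0 p
  have e1 : ‖∑ p ∈ W, ((om p : ℝ) : ℂ) * (conj (X i p) * (T p - ∑ j ∈ s1, X j p * F j))‖ ≤ P * e := by
    calc _ ≤ ∑ p ∈ W, om p * e := by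
          refine norm_sum_le_of_le _ fun p hp => ?_
          by_cases h : om p = 0
          · simp [h]
          · rw [norm_mul, norm_mul, Complex.norm_real, Real.norm_of_nonneg (h0 p), RCLike.norm_conj]
            refine mul_le_mul_of_nonneg_left ?_ (h0 p)
            calc ‖X i p‖ * ‖T p - ∑ j ∈ s1, X j p * F j‖ ≤ 1 * e :=
                  mul_le_mul (hX i p) (hT p hp h) (norm_nonneg _) zero_le_one
              _ = e := one_mul e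
      _ = P * e := by rw [hP, Finset.sum_mul]
  have e2 : ∑ p ∈ W, ((om p : ℝ) : ℂ) * (conj (X i p) * T p) =
      ∑ p ∈ W, ((om p : ℝ) : ℂ) * (conj (X i p) * (T p - ∑ j ∈ s1, X j p * F j)) +
      ∑ j ∈ s1, F j * ∑ p ∈ W, ((om p : ℝ) : ℂ) * (conj (X i p) * X j p) := by
    have e2' : ∑ j ∈ s1, F j * ∑ p ∈ W, ((om p : ℝ) : ℂ) * (conj (X i p) * X j p) =
        ∑ p ∈ W, ((om p : ℝ) : ℂ) * (conj (X i p) * ∑ j ∈ s1, X j p * F j) := by
      simp only [Finset.mul_sum]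
      rw [Finset.sum_comm]
      exact Finset.sum_congr rfl fun p _ => Finset.sum_congr rfl fun j _ => by ring
    rw [e2', ← Finset.sum_add_distrib]
    exact Finset.sum_congr rfl fun p _ => by ring
  have e3 : ∀ t : Finset ι, i ∉ t → t ⊆ s1 →
      ‖∑ j ∈ t, F j * ∑ p ∈ W, ((om p : ℝ) : ℂ) * (conj (X i p) * X j p)‖ ≤ S * (P / 8) := by
    intro t h1 h2
    calc _ ≤ ∑ j ∈ t, S * ‖∑ p ∈ W, ((om p : ℝ) : ℂ) * (conj (X i p) * X j p)‖ := by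
          refine norm_sum_le_of_le _ fun j _ => ?_
          rw [norm_mul]
          exact mul_le_mul_of_nonneg_right (hF j) (norm_nonneg _)
      _ = S * ∑ j ∈ t, ‖∑ p ∈ W, ((om p : ℝ) : ℂ) * (conj (X i p) * X j p)‖ := by rw [Finset.mul_sum]
      _ ≤ _ := mul_le_mul_of_nonneg_left (hrow t h1 h2) hS
  have e4 : ∑ p ∈ W, ((om p : ℝ) : ℂ) * (conj (X i p) * X i p) = ((P : ℝ) : ℂ) := by
    rw [hP, Complex.ofReal_sum]
    refine Finset.sum_congr rfl fun p hp => ?_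
    by_cases h : om p = 0
    · simp [h]
    · have h5 : conj (X i p) * X i p = 1 := by
        rw [mul_comm, Complex.mul_conj, Complex.normSq_eq_norm_sq, hi p hp h]
        simp
      rw [h5, mul_one]
  obtain ⟨a, ha⟩ : ∃ a, a = ∑ p ∈ W, ((om p : ℝ) : ℂ) * (conj (X i p) * (T p - ∑ j ∈ s1, X j p * F j)) := ⟨_, rfl⟩
  rw [← ha] at e1 e2
  by_cases hmem : i ∈ s1
  · have e5 : ∑ j ∈ s1, F j * ∑ p ∈ W, ((om p : ℝ) : ℂ) * (conj (X i p) * X j p) = F i * ((P : ℝ) : ℂ) +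
        ∑ j ∈ s1.erase i, F j * ∑ p ∈ W, ((om p : ℝ) : ℂ) * (conj (X i p) * X j p) := by
      rw [← Finset.add_sum_erase s1 _ hmem, e4]
    have e6 := e3 (s1.erase i) (Finset.notMem_erase i s1) (Finset.erase_subset i s1)
    have e7 : ‖F i * ((P : ℝ) : ℂ)‖ = P * ‖F i‖ := by
      rw [norm_mul, Complex.norm_real, Real.norm_of_nonneg hP0, mul_comm]
    obtain ⟨r, hr⟩ : ∃ r, r = ∑ j ∈ s1.erase i, F j * ∑ p ∈ W, ((om p : ℝ) : ℂ) * (conj (X i p) * X j p) := ⟨_, rfl⟩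
    rw [← hr] at e5 e6
    rw [e5] at e2
    have e8 : P * ‖F i‖ ≤ P * S := mul_le_mul_of_nonneg_left (hF i) hP0
    constructor
    · rw [e2]
      have h1 := norm_add_le a (F i * ((P : ℝ) : ℂ) + r)
      have h2 := norm_add_le (F i * ((P : ℝ) : ℂ)) r
      nlinarith
    · intro _
      have h1 : F i * ((P : ℝ) : ℂ) = (∑ p ∈ W, ((om p : ℝ) : ℂ) * (conj (X i p) * T p)) - a - r := by
        rw [e2]
        ring
      have h2 : P * ‖F i‖ ≤ ‖∑ p ∈ W, ((om p : ℝ) : ℂ) * (conj (X i p) * T p)‖ + ‖a‖ + ‖r‖ := by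
        rw [← e7, h1]
        exact (norm_sub_le _ _).trans (by
          have := norm_sub_le (∑ p ∈ W, ((om p : ℝ) : ℂ) * (conj (X i p) * T p)) a
          linarith)
      nlinarith
  · have e6 := e3 s1 hmem (Finset.Subset.refl _)
    refine ⟨?_, fun h => absurd h hmem⟩
    rw [e2]
    have h1 := norm_add_le a (∑ j ∈ s1, F j * ∑ p ∈ W, ((om p : ℝ) : ℂ) * (conj (X i p) * X j p))
    nlinarith [mul_nonneg hP0 hS]

/-- The inverse of `N`. -/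
theorem WIN_inv (k : ℕ) (hk : 1 ≤ k) (N x₁ q u : ℝ) (hN : 1 ≤ N) (hx₁ : 0 < x₁) (hq : 1 ≤ q) (hu : 1 ≤ u)
    (h1 : x₁ * √q ≤ N ^ k) (h2 : u ≤ 2 ^ k * N ^ (51 * k)) :
    1 / N ≤ 4 ^ k * x₁ ^ (-(1 / (2 * k)) : ℝ) * q ^ (-(1 / (4 * k)) : ℝ) * u ^ (-(1 / (102 * k)) : ℝ) := by
  have hk0 : (0 : ℝ) < k := by exact_mod_cast hk
  have hk1 : (1 : ℝ) ≤ k := by exact_mod_cast hk
  have hN0 : 0 < N := by linarith
  have hq0 : 0 < q := by linarith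
  have a1 : N ^ (-(1 / 2) : ℝ) ≤ x₁ ^ (-(1 / (2 * k)) : ℝ) * q ^ (-(1 / (4 * k)) : ℝ) := by
    have b1 : N ^ (-(1 / 2) : ℝ) = (N ^ k) ^ (-(1 / (2 * k)) : ℝ) := by
      rw [← Real.rpow_natCast, ← Real.rpow_mul hN0.le]
      congr 1
      field_simp
    have b2 : x₁ ^ (-(1 / (2 * k)) : ℝ) * q ^ (-(1 / (4 * k)) : ℝ) = (x₁ * √q) ^ (-(1 / (2 * k)) : ℝ) := by
      rw [Real.mul_rpow hx₁.le (Real.sqrt_nonneg q), Real.sqrt_eq_rpow, ← Real.rpow_mul hq0.le]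
      congr 2
      field_simp
      norm_num
    rw [b1, b2]
    exact Real.rpow_le_rpow_of_nonpos (by positivity) h1 (by
      have : 0 < 1 / (2 * (k : ℝ)) := by positivity
      linarith)
  have a2 : N ^ (-(1 / 2) : ℝ) ≤ 4 ^ k * u ^ (-(1 / (102 * k)) : ℝ) := by
    have b1 : N ^ (-(1 / 2) : ℝ) = (N ^ (51 * k)) ^ (-(1 / (102 * k)) : ℝ) := by
      rw [← Real.rpow_natCast, ← Real.rpow_mul hN0.le]
      congr 1
      push_cast
      field_simp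
      norm_num
    rw [b1]
    have b2 := WIN_cmp u (N ^ (51 * k)) (2 ^ k) (1 / (102 * k)) (by linarith) (by positivity)
      (one_le_pow₀ (by norm_num)) h2 (by positivity) (by
        rw [div_le_iff₀ (by positivity)]
        nlinarith)
    have b3 : ((2 : ℝ) ^ k) ^ 2 = 4 ^ k := by
      rw [← pow_mul, mul_comm, pow_mul]
      norm_num
    rw [b3] at b2
    exact b2
  have a3 : 1 / N = N ^ (-(1 / 2) : ℝ) * N ^ (-(1 / 2) : ℝ) := by
    rw [← Real.rpow_add hN0, one_div, ← Real.rpow_neg_one]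
    norm_num
  rw [a3]
  calc _ ≤ (x₁ ^ (-(1 / (2 * k)) : ℝ) * q ^ (-(1 / (4 * k)) : ℝ)) * (4 ^ k * u ^ (-(1 / (102 * k)) : ℝ)) :=
        mul_le_mul a1 a2 (by positivity) (by positivity)
    _ = _ := by ring

/-- The exponents. -/
theorem WIN_exp (k n : ℕ) (hk : 3 ≤ k) (hn : 100000 * k ≤ n) (u : ℝ) (hu : 1 ≤ u) :
    u ^ (8 / (n : ℝ)) * u ^ (-1 + th k) * u ^ (-(1 / (102 * k)) : ℝ) ≤ u ^ (-1 - 1 / (200 * k) : ℝ) ∧
    u ^ (-(11 / 10) : ℝ) ≤ u ^ (-1 - 1 / (200 * k) : ℝ) ∧ 0 ≤ 1 - th k ∧ 1 - th k ≤ 2 ∧ 8 / (n : ℝ) ≤ 1 ∧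
    52 * k * (8 / (n : ℝ)) ≤ 1 / 2 := by
  have hu0 : 0 < u := by linarith
  have hk3 : (3 : ℝ) ≤ k := by exact_mod_cast hk
  have hn' : 100000 * (k : ℝ) ≤ n := by exact_mod_cast hn
  have hn0 : (0 : ℝ) < n := by linarith
  obtain ⟨κ, hκ⟩ : ∃ κ : ℝ, κ = 1 / k := ⟨_, rfl⟩
  have hκ0 : 0 < κ := by rw [hκ]; positivity
  have hκ1 : κ ≤ 1 / 3 := by
    rw [hκ]
    exact one_div_le_one_div_of_le (by norm_num) hk3
  have e1 : 1 / (102 * (k : ℝ)) = κ / 102 := by rw [hκ]; field_simp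
  have e2 : 1 / (200 * (k : ℝ)) = κ / 200 := by rw [hκ]; field_simp
  have e3 : th k = κ / 1000 := by rw [hκ, th]; field_simp
  have e4 : 8 / (n : ℝ) ≤ κ * (8 / 100000) := by
    rw [hκ, div_le_iff₀ hn0]
    have : 1 / (k : ℝ) * (8 / 100000) * n = 8 / 100000 * (n / k) := by ring
    rw [this]
    have h1 : 100000 ≤ (n : ℝ) / k := by rw [le_div_iff₀ (by linarith)]; exact hn'
    linarith
  have e5 : (k : ℝ) * κ = 1 := by rw [hκ]; field_simp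
  refine ⟨?_, ?_, by rw [e3]; linarith, by rw [e3]; linarith, by linarith, ?_⟩
  · rw [← Real.rpow_add hu0, ← Real.rpow_add hu0]
    refine Real.rpow_le_rpow_of_exponent_le hu ?_
    rw [e1, e2, e3]
    linarith
  · refine Real.rpow_le_rpow_of_exponent_le hu ?_
    rw [e2]
    linarith
  · have h1 : 52 * (k : ℝ) * (8 / (n : ℝ)) ≤ 52 * (k : ℝ) * (κ * (8 / 100000)) :=
      mul_le_mul_of_nonneg_left e4 (by positivity)
    have h2 : 52 * (k : ℝ) * (κ * (8 / 100000)) = (k : ℝ) * κ * (52 * 8 / 100000) := by ring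
    rw [h2, e5] at h1
    linarith

/-- The difference of the values of `f` at two points of the window. -/
theorem WIN_mvt (f f' : ℝ → ℂ) (A B K : ℝ) (hA : 0 < A) (hK : 0 ≤ K) (hf : ∀ x, 0 < x → HasDerivAt f (f' x / x) x)
    (hb : ∀ x, A ≤ x → x ≤ B → ‖f' x‖ ≤ K) (x y : ℝ) (hx : A ≤ x) (hx' : x ≤ B) (hy : A ≤ y) (hy' : y ≤ B) :
    ‖f y - f x‖ ≤ K / A * (B - A) := by
  have h1 : ‖f y - f x‖ ≤ K / A * ‖y - x‖ := by
    refine Convex.norm_image_sub_le_of_norm_hasDerivWithin_le (s := Icc A B) (f' := fun t => f' t / t)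
      (fun t ht => (hf t (lt_of_lt_of_le hA ht.1)).hasDerivWithinAt) (fun t ht => ?_) (convex_Icc A B)
      ⟨hx, hx'⟩ ⟨hy, hy'⟩
    have ht0 : 0 < t := lt_of_lt_of_le hA ht.1
    rw [norm_div, Complex.norm_real, Real.norm_of_nonneg ht0.le]
    exact div_le_div₀ hK (hb t ht.1 ht.2) hA ht.1
  refine h1.trans (mul_le_mul_of_nonneg_left ?_ (by positivity))
  rw [Real.norm_eq_abs, abs_le]
  constructor <;> linarith

theorem WIN (hPTW : PTW_stmt) (hTAI : TAI_stmt) (hFMC : FMC_stmt) (hTVF : TVF_stmt) (hGTF : GTF_stmt)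
    (hSUP : SUP_stmt) : WIN_stmt := by
  intro k n N₀ c CG om μs a b hab hk hn
  obtain ⟨xP, hxP0, hxP1, hP⟩ := hPTW k n N₀ c CG om μs a b hab hk hn
  obtain ⟨xT, hxT0, hxT1, hTt⟩ := hTAI k n N₀ c CG om μs a b hab hk hn
  refine ⟨min xP xT, lt_min hxP0 hxT0, (min_le_left _ _).trans hxP1, ?_⟩
  intro x₁ hx₁ hx₁'
  obtain ⟨CP, hCP, HP⟩ := hP x₁ hx₁ (hx₁'.trans (min_le_left _ _))
  obtain ⟨CT, hCT, HT⟩ := hTt x₁ hx₁ (hx₁'.trans (min_le_right _ _))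
  have hk1 : 1 ≤ k := by omega
  have hk0 : (0 : ℝ) < k := by exact_mod_cast hk1
  have hn1 : 1 ≤ n := by omega
  refine ⟨CP * k * 64 ^ k * x₁ ^ (-(1 / (2 * k)) : ℝ) + CT * 4 ^ k, by positivity, ?_⟩
  intro R₀ hR₀
  obtain ⟨M, hM1, hM2, hM3⟩ : ∃ M : ℕ, N₀ ≤ M ∧ 2 ≤ M ∧ R₀ ^ 4 ≤ (M : ℝ) := by
    refine ⟨max (max N₀ 2) ⌈R₀ ^ 4⌉₊, (le_max_left _ _).trans (le_max_left _ _),
      (le_max_right _ _).trans (le_max_left _ _), (Nat.le_ceil _).trans ?_⟩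
    exact_mod_cast le_max_right _ _
  refine ⟨max 3 (((M : ℝ) ^ k / x₁) ^ 2), le_max_left _ _, ?_⟩
  intro ι D hDa hDb hOk q v N d x i hq hN hd1 hd2 hx1 hx2 hri
  have hctr : Ctr D.a D.b := hOk.ctr
  have fam := hOk.fam
  have hq3 : 3 ≤ q := (le_max_left _ _).trans hq
  have hsq : 1 ≤ √q := by
    rw [Real.one_le_sqrt]
    linarith
  have hsq0 : 0 < √q := by linarith
  have hMq : (M : ℝ) ^ k ≤ x₁ * √q := by
    have h1 : (M : ℝ) ^ k / x₁ ≤ √q := Real.le_sqrt_of_sq_le ((le_max_right _ _).trans hq)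
    rw [div_le_iff₀ hx₁] at h1
    linarith
  have hMN : M ≤ N := by
    have h1 : (M : ℝ) ^ k ≤ (N : ℝ) ^ k := hMq.trans hN
    have h2 : M ^ k ≤ N ^ k := by exact_mod_cast h1
    exact (Nat.pow_le_pow_iff_left (by omega)).1 h2
  have hN2 : 2 ≤ N := hM2.trans hMN
  have hN2' : (2 : ℝ) ≤ N := by exact_mod_cast hN2
  have hN1' : (1 : ℝ) ≤ N := by linarith
  have hN0' : (0 : ℝ) < N := by linarith
  have hd1' : (1 : ℝ) ≤ d := by exact_mod_cast hd1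
  have hd0' : (0 : ℝ) < d := by linarith
  obtain ⟨-, hGs, hGd, -, -, -, hG0⟩ := hGTF n ι D hn1 hctr fam.r1 hOk.om fam.bd hOk.pos
  obtain ⟨hS1, hS0, -, -, -, -, -, hS8, -⟩ := hSUP n ι D hn1 hctr fam.r1 hOk.om fam.bd hOk.pos v
  obtain ⟨-, -, -, hT4, -⟩ := hTVF n ι D hn1 hctr fam.r1 hOk.om fam.bd fam.mul hOk.pos q (by linarith)
  obtain ⟨-, hcard, -⟩ := hFMC n ι D fam.r1 fam.cnt
  have hNv0 : 0 ≤ D.N x₁ q v / √q := div_nonneg (hS8 x₁ q hx₁ hq3) hsq0.le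
  obtain ⟨Nv, hNv⟩ : ∃ Nv, Nv = D.N x₁ q v / √q := ⟨_, rfl⟩
  rw [← hNv] at hNv0 ⊢
  -- the end points
  obtain ⟨A, hA⟩ : ∃ A : ℝ, A = (d : ℝ) * (N : ℝ) ^ k / √q := ⟨_, rfl⟩
  obtain ⟨B, hB⟩ : ∃ B : ℝ, B = (d : ℝ) * ((N : ℝ) + 1) ^ k / √q := ⟨_, rfl⟩
  rw [← hA] at hx1
  rw [← hB] at hx2
  have hA0 : 0 < A := by rw [hA]; positivity
  have hx₁A : x₁ ≤ A := by
    rw [hA, le_div_iff₀ hsq0]
    calc x₁ * √q ≤ (N : ℝ) ^ k := hN
      _ = 1 * (N : ℝ) ^ k := (one_mul _).symm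
      _ ≤ _ := mul_le_mul_of_nonneg_right hd1' (by positivity)
  have hBA : B ≤ 2 ^ k * A := by
    have h1 : ((N : ℝ) + 1) ^ k ≤ 2 ^ k * (N : ℝ) ^ k := by
      rw [← mul_pow]
      exact pow_le_pow_left₀ (by linarith) (by linarith) k
    rw [hA, hB, ← mul_div_assoc]
    refine div_le_div_of_nonneg_right ?_ hsq0.le
    calc (d : ℝ) * ((N : ℝ) + 1) ^ k ≤ d * (2 ^ k * (N : ℝ) ^ k) := mul_le_mul_of_nonneg_left h1 hd0'.le
      _ = _ := by ring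
  have hdiff : (B - A) / A ≤ k * 2 ^ k / N := by
    have h1 := WIN_diff (N : ℝ) hN1' k
    rw [div_le_div_iff₀ hA0 hN0']
    have h2 : (B - A) * N = d / √q * ((((N : ℝ) + 1) ^ k - (N : ℝ) ^ k) * N) := by
      rw [hA, hB]
      ring
    have h3 : k * 2 ^ k * A = d / √q * (k * 2 ^ k * (N : ℝ) ^ k) := by
      rw [hA]
      ring
    rw [h2, h3]
    exact mul_le_mul_of_nonneg_left h1 (by positivity)
  have hAB : A ≤ B := hx1.trans hx2
  have hx0 : 0 < x := lt_of_lt_of_le hA0 hx1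
  obtain ⟨u, hu⟩ : ∃ u, u = max 1 x := ⟨_, rfl⟩
  have hu1 : 1 ≤ u := by rw [hu]; exact le_max_left _ _
  have hu0 : 0 < u := by linarith
  have h2k : (1 : ℝ) ≤ 2 ^ k := one_le_pow₀ (by norm_num)
  have hcmp : ∀ y, A ≤ y → u ≤ 2 ^ k * max 1 y := by
    intro y hy
    rw [hu]
    refine max_le ?_ ?_
    · calc (1 : ℝ) ≤ 2 ^ k := h2k
        _ = 2 ^ k * 1 := (mul_one _).symm
        _ ≤ _ := mul_le_mul_of_nonneg_left (le_max_left _ _) (by positivity)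
    · calc x ≤ 2 ^ k * A := hx2.trans hBA
        _ ≤ 2 ^ k * y := mul_le_mul_of_nonneg_left hy (by positivity)
        _ ≤ _ := mul_le_mul_of_nonneg_left (le_max_right _ _) (by positivity)
  have hBu : max 1 B ≤ 2 ^ k * u := by
    rw [hu]
    refine max_le ?_ ?_
    · calc (1 : ℝ) ≤ 2 ^ k := h2k
        _ = 2 ^ k * 1 := (mul_one _).symm
        _ ≤ _ := mul_le_mul_of_nonneg_left (le_max_left _ _) (by positivity)
    · calc B ≤ 2 ^ k * A := hBA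
        _ ≤ 2 ^ k * x := mul_le_mul_of_nonneg_left hx1 (by positivity)
        _ ≤ _ := mul_le_mul_of_nonneg_left (le_max_right _ _) (by positivity)
  -- size of B
  have hBN : max 1 B ≤ 2 ^ k * (N : ℝ) ^ (51 * k) := by
    refine max_le ?_ ?_
    · exact one_le_mul_of_one_le_of_one_le h2k (one_le_pow₀ hN1')
    · have h1 : ((N : ℝ) + 1) ^ k ≤ 2 ^ k * (N : ℝ) ^ k := by
        rw [← mul_pow]
        exact pow_le_pow_left₀ (by linarith) (by linarith) k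
      rw [hB]
      refine (div_le_self (by positivity) hsq).trans ?_
      calc (d : ℝ) * ((N : ℝ) + 1) ^ k ≤ ((N : ℝ) ^ k) ^ 50 * (2 ^ k * (N : ℝ) ^ k) :=
            mul_le_mul hd2 h1 (by positivity) (by positivity)
        _ = 2 ^ k * (N : ℝ) ^ (51 * k) := by
            rw [← pow_mul, show 51 * k = k * 50 + k by ring, pow_add]
            ring
  have hBN2 : max 1 B ≤ (N : ℝ) ^ (52 * k) := by
    refine hBN.trans ?_
    calc (2 : ℝ) ^ k * (N : ℝ) ^ (51 * k) ≤ (N : ℝ) ^ k * (N : ℝ) ^ (51 * k) :=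
          mul_le_mul_of_nonneg_right (pow_le_pow_left₀ (by norm_num) hN2' k) (by positivity)
      _ = _ := by
          rw [← pow_add]
          congr 1
          ring
  have huN : u ≤ 2 ^ k * (N : ℝ) ^ (51 * k) := by
    have h1 : u ≤ max 1 B := by
      rw [hu]
      exact max_le_max (le_refl _) hx2
    exact h1.trans hBN
  obtain ⟨hE1, hE2, hE3, hE4, hE5, hE6⟩ := WIN_exp k n hk hn u hu1
  have hinv := WIN_inv k hk1 (N : ℝ) x₁ q u hN1' hx₁ (by linarith) hu1 hN huN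
  -- the radius
  obtain ⟨R, hR⟩ : ∃ R, R = Rx n R₀ B := ⟨_, rfl⟩
  have hn0' : (0 : ℝ) < n := by exact_mod_cast hn1
  have hm1 : 1 ≤ max 1 B := le_max_left _ _
  have hR1 : 1 ≤ R := by
    rw [hR, Rx]
    exact one_le_mul_of_one_le_of_one_le hR₀ (Real.one_le_rpow hm1 (by positivity))
  have hRsq : R ^ 2 = R₀ ^ 2 * (max 1 B) ^ (8 / (n : ℝ)) := by
    rw [hR, Rx, mul_pow, ← Real.rpow_natCast, ← Real.rpow_natCast, ← Real.rpow_mul (by linarith)]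
    congr 2
    push_cast
    ring
  have hR2u : R ^ 2 ≤ R₀ ^ 2 * (2 ^ k * u ^ (8 / (n : ℝ))) := by
    rw [hRsq]
    refine mul_le_mul_of_nonneg_left ?_ (by positivity)
    calc (max 1 B) ^ (8 / (n : ℝ)) ≤ (2 ^ k * u) ^ (8 / (n : ℝ)) :=
          Real.rpow_le_rpow (by linarith) hBu (by positivity)
      _ = (2 ^ k) ^ (8 / (n : ℝ)) * u ^ (8 / (n : ℝ)) := Real.mul_rpow (by positivity) hu0.le
      _ ≤ _ := by
          refine mul_le_mul_of_nonneg_right ?_ (by positivity)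
          calc ((2 : ℝ) ^ k) ^ (8 / (n : ℝ)) ≤ ((2 : ℝ) ^ k) ^ (1 : ℝ) :=
                Real.rpow_le_rpow_of_exponent_le h2k hE5
            _ = 2 ^ k := Real.rpow_one _
  have hR2N : R ^ 2 ≤ N := by
    rw [hRsq]
    have h1 : (max 1 B) ^ (8 / (n : ℝ)) ≤ (N : ℝ) ^ (1 / 2 : ℝ) := by
      calc (max 1 B) ^ (8 / (n : ℝ)) ≤ ((N : ℝ) ^ (52 * k)) ^ (8 / (n : ℝ)) :=
            Real.rpow_le_rpow (by linarith) hBN2 (by positivity)
        _ = (N : ℝ) ^ (52 * k * (8 / (n : ℝ))) := by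
            rw [← Real.rpow_natCast, ← Real.rpow_mul hN0'.le]
            push_cast
            rfl
        _ ≤ _ := Real.rpow_le_rpow_of_exponent_le hN1' hE6
    have h2 : R₀ ^ 2 ≤ (N : ℝ) ^ (1 / 2 : ℝ) := by
      have h3 : R₀ ^ 4 ≤ (N : ℝ) := hM3.trans (by exact_mod_cast hMN)
      calc R₀ ^ 2 = (R₀ ^ 4) ^ (1 / 2 : ℝ) := by
            rw [← Real.rpow_natCast, ← Real.rpow_natCast, ← Real.rpow_mul (by linarith)]
            congr 1
            norm_num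
        _ ≤ _ := Real.rpow_le_rpow (by positivity) h3 (by norm_num)
    calc R₀ ^ 2 * (max 1 B) ^ (8 / (n : ℝ)) ≤ (N : ℝ) ^ (1 / 2 : ℝ) * (N : ℝ) ^ (1 / 2 : ℝ) :=
          mul_le_mul h2 h1 (by positivity) (by positivity)
      _ = N := by
          rw [← Real.rpow_add hN0']
          norm_num
  have hRxm : ∀ y, y ≤ B → Rx n R₀ y ≤ R := by
    intro y hy
    rw [hR, Rx, Rx]
    refine mul_le_mul_of_nonneg_left (Real.rpow_le_rpow ?_ (max_le_max (le_refl _) hy) (by positivity)) (by linarith)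
    exact le_trans zero_le_one (le_max_left _ _)
  -- the error
  obtain ⟨w, hw⟩ : ∃ w : ℝ, w = u ^ (-1 - 1 / (200 * k) : ℝ) := ⟨_, rfl⟩
  have hw0 : 0 ≤ w := by rw [hw]; positivity
  obtain ⟨Q, hQ⟩ : ∃ Q : ℝ, Q = q ^ (-(1 / (4 * k)) : ℝ) := ⟨_, rfl⟩
  have hQ0 : 0 ≤ Q := by rw [hQ]; exact Real.rpow_nonneg (by linarith) _
  obtain ⟨C1, hC1⟩ : ∃ C1 : ℝ, C1 = CP * k * 64 ^ k * x₁ ^ (-(1 / (2 * k)) : ℝ) := ⟨_, rfl⟩
  obtain ⟨C2, hC2⟩ : ∃ C2 : ℝ, C2 = CT * 4 ^ k := ⟨_, rfl⟩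
  have hC10 : 0 ≤ C1 := by rw [hC1]; positivity
  have hC20 : 0 ≤ C2 := by rw [hC2]; positivity
  rw [← hC1, ← hC2, ← hQ, ← hu, ← hw]
  have h4k : ((2 : ℝ) ^ k) ^ 2 = 4 ^ k := by
    rw [← pow_mul, mul_comm, pow_mul]
    norm_num
  -- bound of the derivative on the window
  have hder : ∀ j, ∀ y, A ≤ y → y ≤ B → ‖D.f 1 j (v j) y‖ ≤ CP * (4 ^ k * u ^ (-1 + th k)) * Nv := by
    intro j y hy _
    have h1 := ((HP ι D hDa hDb hOk q v j hq3).2 1 y (le_refl _) (hx₁A.trans hy)).1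
    rw [← hNv] at h1
    refine h1.trans ?_
    refine mul_le_mul_of_nonneg_right (mul_le_mul_of_nonneg_left ?_ hCP.le) hNv0
    have h2 := WIN_cmp u (max 1 y) (2 ^ k) (1 - th k) hu0 (lt_of_lt_of_le one_pos (le_max_left _ _)) h2k
      (hcmp y hy) hE3 hE4
    rw [h4k, neg_sub, show th k - 1 = -1 + th k by ring] at h2
    exact h2
  -- the error on small moduli
  have hsm : ∀ y, A ≤ y → y ≤ B → ∀ s1 : Finset ι, (∀ j ∈ s1, (D.r j : ℝ) ≤ R) →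
      ∑ j ∈ s1, ‖D.f 0 j (v j) y - D.f 0 j (v j) x‖ ≤ C1 * R₀ ^ 2 * Q * w * Nv := by
    intro y hy hy' s1 hs1
    have h1 : ∀ j ∈ s1, ‖D.f 0 j (v j) y - D.f 0 j (v j) x‖ ≤
        CP * (4 ^ k * u ^ (-1 + th k)) * Nv * (k * 2 ^ k / N) := by
      intro j _
      have h2 := WIN_mvt (D.f 0 j (v j)) (D.f 1 j (v j)) A B (CP * (4 ^ k * u ^ (-1 + th k)) * Nv) hA0
        (by positivity) (fun z hz => hGd 0 j (v j) z hz) (hder j) x y hx1 hx2 hy hy'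
      refine h2.trans ?_
      have h3 : CP * (4 ^ k * u ^ (-1 + th k)) * Nv / A * (B - A) =
          CP * (4 ^ k * u ^ (-1 + th k)) * Nv * ((B - A) / A) := by ring
      rw [h3]
      exact mul_le_mul_of_nonneg_left hdiff (by positivity)
    have h2 : (s1.card : ℝ) ≤ R ^ 2 := hcard R s1 hR1 hs1
    calc ∑ j ∈ s1, ‖D.f 0 j (v j) y - D.f 0 j (v j) x‖
        ≤ ∑ _j ∈ s1, CP * (4 ^ k * u ^ (-1 + th k)) * Nv * (k * 2 ^ k / N) := Finset.sum_le_sum h1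
      _ = s1.card * (CP * (4 ^ k * u ^ (-1 + th k)) * Nv * (k * 2 ^ k / N)) := by
          rw [Finset.sum_const, nsmul_eq_mul]
      _ ≤ (R₀ ^ 2 * (2 ^ k * u ^ (8 / (n : ℝ)))) * (CP * (4 ^ k * u ^ (-1 + th k)) * Nv * (k * 2 ^ k / N)) :=
          mul_le_mul_of_nonneg_right (h2.trans hR2u) (by positivity)
      _ = (R₀ ^ 2 * (2 ^ k * u ^ (8 / (n : ℝ))) * (CP * (4 ^ k * u ^ (-1 + th k)) * Nv * (k * 2 ^ k))) * (1 / N) := by
          ring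
      _ ≤ (R₀ ^ 2 * (2 ^ k * u ^ (8 / (n : ℝ))) * (CP * (4 ^ k * u ^ (-1 + th k)) * Nv * (k * 2 ^ k))) *
          (4 ^ k * x₁ ^ (-(1 / (2 * k)) : ℝ) * q ^ (-(1 / (4 * k)) : ℝ) * u ^ (-(1 / (102 * k)) : ℝ)) :=
          mul_le_mul_of_nonneg_left hinv (by positivity)
      _ = (CP * k * (2 ^ k * 4 ^ k * (2 ^ k * 4 ^ k)) * x₁ ^ (-(1 / (2 * k)) : ℝ)) * R₀ ^ 2 *
          q ^ (-(1 / (4 * k)) : ℝ) *
          (u ^ (8 / (n : ℝ)) * u ^ (-1 + th k) * u ^ (-(1 / (102 * k)) : ℝ)) * Nv := by ring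
      _ ≤ (CP * k * (2 ^ k * 4 ^ k * (2 ^ k * 4 ^ k)) * x₁ ^ (-(1 / (2 * k)) : ℝ)) * R₀ ^ 2 *
          q ^ (-(1 / (4 * k)) : ℝ) * w * Nv := by
          refine mul_le_mul_of_nonneg_right (mul_le_mul_of_nonneg_left ?_ ?_) hNv0
          · rw [hw]
            exact hE1
          · rw [← hQ]
            positivity
      _ = C1 * R₀ ^ 2 * Q * w * Nv := by
          rw [hC1, hQ]
          have h5 : (2 : ℝ) ^ k * 4 ^ k * (2 ^ k * 4 ^ k) = 64 ^ k := by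
            rw [← mul_pow, ← mul_pow]
            norm_num
          rw [h5]
  -- the large moduli
  have hla : ∀ y, A ≤ y → y ≤ B → ∀ s2 : Finset ι, (∀ j ∈ s2, R ≤ (D.r j : ℝ)) →
      ∑ j ∈ s2, ‖D.f 0 j (v j) y‖ ≤ C2 / R₀ * w * Nv := by
    intro y hy hy' s2 hs2
    have h1 := HT ι D hDa hDb hOk q v R₀ y s2 hq3 hR₀ (hx₁A.trans hy)
      (fun j hj => (hRxm y hy').trans (hs2 j hj))
    rw [← hNv] at h1
    refine h1.trans ?_
    have h2 := WIN_cmp u (max 1 y) (2 ^ k) (11 / 10) hu0 (lt_of_lt_of_le one_pos (le_max_left _ _)) h2k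
      (hcmp y hy) (by norm_num) (by norm_num)
    rw [h4k] at h2
    have h3 : (max 1 y) ^ (-(11 / 10) : ℝ) ≤ 4 ^ k * w := by
      refine h2.trans (mul_le_mul_of_nonneg_left ?_ (by positivity))
      rw [hw]
      exact hE2
    calc CT / R₀ * (max 1 y) ^ (-(11 / 10) : ℝ) * Nv ≤ CT / R₀ * (4 ^ k * w) * Nv :=
          mul_le_mul_of_nonneg_right (mul_le_mul_of_nonneg_left h3 (by positivity)) hNv0
      _ = C2 / R₀ * w * Nv := by
          rw [hC2]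
          ring
  -- the split
  classical
  obtain ⟨s1, hs1⟩ : ∃ s1, s1 = v.support.filter (fun j => (D.r j : ℝ) ≤ R) := ⟨_, rfl⟩
  obtain ⟨s2, hs2⟩ : ∃ s2, s2 = v.support.filter (fun j => ¬ (D.r j : ℝ) ≤ R) := ⟨_, rfl⟩
  obtain ⟨e, he⟩ : ∃ e : ℝ, e = ((C1 + C2) * R₀ ^ 2 * Q + (C1 + C2) / R₀) * w * Nv := ⟨_, rfl⟩
  have hR₀0 : 0 < R₀ := by linarith
  have hsum : C1 * R₀ ^ 2 * Q * w * Nv + C2 / R₀ * w * Nv ≤ e := by
    rw [he]
    have h1 : ((C1 + C2) * R₀ ^ 2 * Q + (C1 + C2) / R₀) * w * Nv = C1 * R₀ ^ 2 * Q * w * Nv + C2 / R₀ * w * Nv +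
        (C2 * R₀ ^ 2 * Q * w * Nv + C1 / R₀ * w * Nv) := by ring
    rw [h1]
    have h2 : 0 ≤ C2 * R₀ ^ 2 * Q * w * Nv + C1 / R₀ * w * Nv := by positivity
    linarith
  rw [← he]
  have hpW : ∀ p ∈ Win k N, (N : ℝ) ^ k ≤ p ∧ (p : ℝ) ≤ ((N : ℝ) + 1) ^ k ∧ N < p := by
    intro p hp
    rw [Win, Finset.mem_Ioo] at hp
    refine ⟨by exact_mod_cast hp.1.le, by exact_mod_cast hp.2.le, ?_⟩
    exact lt_of_le_of_lt (Nat.le_self_pow (by omega) N) hp.1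
  have hT : ∀ p ∈ Win k N, om N p ≠ 0 →
      ‖D.T q v (p * d) - ∑ j ∈ s1, D.X j p * (D.X j d * D.f 0 j (v j) x)‖ ≤ e := by
    intro p hp _
    obtain ⟨h1, h2, h3⟩ := hpW p hp
    have hp0 : p ≠ 0 := by omega
    have hy : A ≤ (p : ℝ) * d / √q := by
      rw [hA]
      refine div_le_div_of_nonneg_right ?_ hsq0.le
      rw [mul_comm (p : ℝ)]
      exact mul_le_mul_of_nonneg_left h1 hd0'.le
    have hy' : (p : ℝ) * d / √q ≤ B := by
      rw [hB]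
      refine div_le_div_of_nonneg_right ?_ hsq0.le
      rw [mul_comm (p : ℝ)]
      exact mul_le_mul_of_nonneg_left h2 hd0'.le
    rw [hT4 v v.support p d (Finset.Subset.refl _) hp0 (by omega)]
    obtain ⟨y, hyy⟩ : ∃ y, y = (p : ℝ) * d / √q := ⟨_, rfl⟩
    rw [← hyy] at hy hy' ⊢
    have h4 : ∑ j ∈ v.support, D.X j p * (D.X j d * D.f 0 j (v j) y) =
        ∑ j ∈ s1, D.X j p * (D.X j d * D.f 0 j (v j) y) + ∑ j ∈ s2, D.X j p * (D.X j d * D.f 0 j (v j) y) := by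
      rw [hs1, hs2]
      exact (Finset.sum_filter_add_sum_filter_not _ _ _).symm
    have h5 : ∑ j ∈ v.support, D.X j p * (D.X j d * D.f 0 j (v j) y) -
        ∑ j ∈ s1, D.X j p * (D.X j d * D.f 0 j (v j) x) =
        ∑ j ∈ s1, D.X j p * (D.X j d * (D.f 0 j (v j) y - D.f 0 j (v j) x)) +
          ∑ j ∈ s2, D.X j p * (D.X j d * D.f 0 j (v j) y) := by
      rw [h4]
      have h6 : ∑ j ∈ s1, D.X j p * (D.X j d * (D.f 0 j (v j) y - D.f 0 j (v j) x)) =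
          ∑ j ∈ s1, D.X j p * (D.X j d * D.f 0 j (v j) y) - ∑ j ∈ s1, D.X j p * (D.X j d * D.f 0 j (v j) x) := by
        rw [← Finset.sum_sub_distrib]
        exact Finset.sum_congr rfl fun j _ => by ring
      rw [h6]
      ring
    rw [h5]
    have hXX : ∀ j (z : ℂ), ‖D.X j p * (D.X j d * z)‖ ≤ ‖z‖ := by
      intro j z
      rw [norm_mul, norm_mul]
      calc ‖D.X j p‖ * (‖D.X j d‖ * ‖z‖) ≤ 1 * (1 * ‖z‖) :=
            mul_le_mul (fam.bd j p) (mul_le_mul_of_nonneg_right (fam.bd j d) (norm_nonneg _))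
              (mul_nonneg (norm_nonneg _) (norm_nonneg _)) zero_le_one
        _ = ‖z‖ := by ring
    have h7 : ‖∑ j ∈ s1, D.X j p * (D.X j d * (D.f 0 j (v j) y - D.f 0 j (v j) x))‖ ≤
        C1 * R₀ ^ 2 * Q * w * Nv := by
      refine (norm_sum_le_of_le _ fun j _ => hXX j _).trans (hsm y hy hy' s1 fun j hj => ?_)
      rw [hs1, Finset.mem_filter] at hj
      exact hj.2
    have h8 : ‖∑ j ∈ s2, D.X j p * (D.X j d * D.f 0 j (v j) y)‖ ≤ C2 / R₀ * w * Nv := by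
      refine (norm_sum_le_of_le _ fun j _ => hXX j _).trans (hla y hy hy' s2 fun j hj => ?_)
      rw [hs2, Finset.mem_filter, not_le] at hj
      exact hj.2.le
    exact (norm_add_le _ _).trans ((add_le_add h7 h8).trans hsum)
  have hF : ∀ j, ‖D.X j d * D.f 0 j (v j) x‖ ≤ D.S v x := by
    intro j
    rw [norm_mul]
    calc ‖D.X j d‖ * ‖D.f 0 j (v j) x‖ ≤ 1 * D.S v x :=
          mul_le_mul (fam.bd j d) (hS1 x hx0 j) (norm_nonneg _) zero_le_one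
      _ = D.S v x := one_mul _
  have hNN : N₀ ≤ N := hM1.trans hMN
  have hrow : ∀ t : Finset ι, i ∉ t → t ⊆ s1 →
      ∑ j ∈ t, ‖∑ p ∈ Win k N, ((om N p : ℝ) : ℂ) * (conj (D.X i p) * D.X j p)‖ ≤
        (∑ p ∈ Win k N, om N p) / 8 := by
    intro t ht hts
    refine fam.row N hNN i hri t ht fun j hj => ?_
    have h1 := hts hj
    rw [hs1, Finset.mem_filter] at h1
    have h2 : (D.r j : ℝ) ^ 2 ≤ R ^ 2 := pow_le_pow_left₀ (Nat.cast_nonneg _) h1.2 2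
    exact h2.trans hR2N
  have hi : ∀ p ∈ Win k N, om N p ≠ 0 → ‖D.X i p‖ = 1 := by
    intro p hp hom
    have hpr := (fam.omP N p hom).1
    obtain ⟨-, -, h3⟩ := hpW p hp
    refine fam.cop i p ((Nat.Prime.coprime_iff_not_dvd hpr).2 fun hdv => ?_)
    have h4 : p ≤ D.r i := Nat.le_of_dvd (fam.r1 i) hdv
    have h5 : D.r i ^ 2 ≤ N := by exact_mod_cast hri
    have h6 : D.r i ≤ D.r i ^ 2 := Nat.le_self_pow (by norm_num) _
    omega
  obtain ⟨g1, g2⟩ := WIN_comb (Win k N) (om N) (fam.om0 N) D.X fam.bd (fun p => D.T q v (p * d)) s1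
    (fun j => D.X j d * D.f 0 j (v j) x) i e (D.S v x) (hS0 x hx0) hT hF hrow hi
  refine ⟨g1, fun hd hri' => ?_⟩
  subst hd
  have hX1 : D.X i 1 = 1 := fam.one i
  simp only [mul_one, hX1, one_mul] at g2
  have hBx : B = ((N : ℝ) + 1) ^ k / √q := by
    rw [hB, Nat.cast_one, one_mul]
  by_cases hiv : i ∈ v.support
  · have him : i ∈ s1 := by
      rw [hs1, Finset.mem_filter]
      refine ⟨hiv, ?_⟩
      rw [hR, hBx]
      exact hri'
    have h1 := g2 him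
    exact h1
  · have h1 : v i = 0 := Finsupp.notMem_support_iff.1 hiv
    rw [h1, hG0 0 i x, norm_zero, mul_zero]
    have he0 : 0 ≤ e := by
      rw [he]
      positivity
    have h2 : 0 ≤ Pw om k N := Finset.sum_nonneg fun p _ => fam.om0 N p
    have h3 := hS0 x hx0
    positivity

end Pool.Agent.TW
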