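import Pool.Agent.helper1.TW.SpecB

set_option autoImplicit false

open Complex MeasureTheory Set
open scoped ComplexConjugate

namespace Pool.Agent.TW

open Pool.Agent.ZT (VV gC Bn MC cmf cmA cmI lamA muA hm Sqf)

/-- The sum of the squares of the moduli. -/
theorem LSI_cnt {ι : Type} (r : ι → ℕ) (hr : ∀ (R : ℕ) (s : Finset ι), (∀ i ∈ s, r i = R) → s.card ≤ R) (R : ℝ)
    (hR : 1 ≤ R) (s : Finset ι) (hs : ∀ i ∈ s, (r i : ℝ) ≤ R) : ∑ i ∈ s, (r i : ℝ) ^ 2 ≤ R ^ 4 := by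
  classical
  obtain ⟨M, hM⟩ : ∃ M, M = ⌊R⌋₊ := ⟨_, rfl⟩
  have hMR : (M : ℝ) ≤ R := by
    rw [hM]
    exact Nat.floor_le (by linarith)
  have hmem : ∀ i ∈ s, r i ∈ Finset.range (M + 1) := by
    intro i hi
    rw [Finset.mem_range, Nat.lt_succ_iff, hM]
    exact Nat.le_floor (hs i hi)
  have h0 : ∑ x ∈ Finset.range (M + 1), ∑ i ∈ s.filter (fun i => r i = x), (r i : ℝ) ^ 2 = ∑ i ∈ s, (r i : ℝ) ^ 2 :=
    Finset.sum_fiberwise_of_maps_to hmem _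
  rw [← h0, Finset.sum_range_succ']
  have h1 : ∀ x ∈ Finset.range M, ∑ i ∈ s.filter (fun i => r i = x + 1), (r i : ℝ) ^ 2 ≤ (M : ℝ) ^ 3 := by
    intro x hx
    rw [Finset.mem_range] at hx
    have h2 : ((s.filter (fun i => r i = x + 1)).card : ℝ) ≤ ((x + 1 : ℕ) : ℝ) := by
      exact_mod_cast hr (x + 1) _ (fun i hi => (Finset.mem_filter.1 hi).2)
    have h3 : ((x + 1 : ℕ) : ℝ) ≤ M := by exact_mod_cast hx
    calc ∑ i ∈ s.filter (fun i => r i = x + 1), (r i : ℝ) ^ 2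
        = ∑ _i ∈ s.filter (fun i => r i = x + 1), ((x + 1 : ℕ) : ℝ) ^ 2 :=
          Finset.sum_congr rfl fun i hi => by rw [(Finset.mem_filter.1 hi).2]
      _ = ((s.filter (fun i => r i = x + 1)).card : ℝ) * ((x + 1 : ℕ) : ℝ) ^ 2 := by
          rw [Finset.sum_const, nsmul_eq_mul]
      _ ≤ (M : ℝ) * (M : ℝ) ^ 2 := mul_le_mul (h2.trans h3) (pow_le_pow_left₀ (by positivity) h3 2)
          (by positivity) (by positivity)
      _ = (M : ℝ) ^ 3 := by ring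
  have h2 : ∑ i ∈ s.filter (fun i => r i = 0), (r i : ℝ) ^ 2 = 0 := by
    refine Finset.sum_eq_zero fun i hi => ?_
    rw [(Finset.mem_filter.1 hi).2]
    norm_num
  rw [h2, add_zero]
  calc ∑ x ∈ Finset.range M, ∑ i ∈ s.filter (fun i => r i = x + 1), (r i : ℝ) ^ 2
      ≤ ∑ _x ∈ Finset.range M, (M : ℝ) ^ 3 := Finset.sum_le_sum h1
    _ = (M : ℝ) ^ 4 := by
        rw [Finset.sum_const, Finset.card_range, nsmul_eq_mul]
        ring
    _ ≤ R ^ 4 := pow_le_pow_left₀ (by positivity) hMR 4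

theorem LSI : LSI_stmt := by
  intro k N₀ c CG om ι r X hF R s a b u hR hs hab
  classical
  obtain ⟨z, hz⟩ : ∃ z : ι → ℂ, z = fun i => ∑ m ∈ Finset.Ico a b, u m * X i m := ⟨_, rfl⟩
  obtain ⟨w, hw⟩ : ∃ w : ℕ → ℂ, w = fun m => ∑ i ∈ s, conj (z i) * X i m := ⟨_, rfl⟩
  obtain ⟨Z, hZ⟩ : ∃ Z : ℝ, Z = ∑ i ∈ s, ‖z i‖ ^ 2 := ⟨_, rfl⟩
  obtain ⟨U, hU⟩ : ∃ U : ℝ, U = ∑ m ∈ Finset.Ico a b, ‖u m‖ ^ 2 := ⟨_, rfl⟩
  have hgoal : ∑ i ∈ s, ‖∑ m ∈ Finset.Ico a b, u m * X i m‖ ^ 2 = Z := by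
    rw [hZ, hz]
  rw [hgoal, ← hU]
  have hZ0 : 0 ≤ Z := by rw [hZ]; positivity
  have hU0 : 0 ≤ U := by rw [hU]; positivity
  have hab' : (a : ℝ) ≤ b := by exact_mod_cast hab
  have hsq : ∀ x : ℂ, ((‖x‖ ^ 2 : ℝ) : ℂ) = conj x * x := by
    intro x
    rw [mul_comm, Complex.mul_conj, Complex.normSq_eq_norm_sq]
  -- duality
  have h1 : ((Z : ℝ) : ℂ) = ∑ m ∈ Finset.Ico a b, u m * w m := by
    rw [hZ, Complex.ofReal_sum]
    calc ∑ i ∈ s, ((‖z i‖ ^ 2 : ℝ) : ℂ) = ∑ i ∈ s, ∑ m ∈ Finset.Ico a b, u m * (conj (z i) * X i m) := by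
          refine Finset.sum_congr rfl fun i _ => ?_
          rw [hsq]
          have e1 : z i = ∑ m ∈ Finset.Ico a b, u m * X i m := by rw [hz]
          calc conj (z i) * z i = conj (z i) * ∑ m ∈ Finset.Ico a b, u m * X i m := by rw [← e1]
            _ = ∑ m ∈ Finset.Ico a b, u m * (conj (z i) * X i m) := by
                rw [Finset.mul_sum]
                exact Finset.sum_congr rfl fun m _ => by ring
      _ = ∑ m ∈ Finset.Ico a b, ∑ i ∈ s, u m * (conj (z i) * X i m) := Finset.sum_comm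
      _ = _ := by
          refine Finset.sum_congr rfl fun m _ => ?_
          rw [hw, Finset.mul_sum]
  have h2 : Z ≤ ∑ m ∈ Finset.Ico a b, ‖u m‖ * ‖w m‖ := by
    calc Z = ‖((Z : ℝ) : ℂ)‖ := by rw [Complex.norm_real, Real.norm_of_nonneg hZ0]
      _ = ‖∑ m ∈ Finset.Ico a b, u m * w m‖ := by rw [h1]
      _ ≤ _ := norm_sum_le_of_le _ fun m _ => by rw [norm_mul]
  have h3 : Z ^ 2 ≤ U * ∑ m ∈ Finset.Ico a b, ‖w m‖ ^ 2 := by
    rw [hU]
    exact (pow_le_pow_left₀ hZ0 h2 2).trans (Finset.sum_mul_sq_le_sq_mul_sq _ _ _)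
  -- the sum of the squares of the `w m`
  have h4 : ((∑ m ∈ Finset.Ico a b, ‖w m‖ ^ 2 : ℝ) : ℂ) =
      ∑ i ∈ s, ∑ j ∈ s, z i * conj (z j) * ∑ m ∈ Finset.Ico a b, conj (X i m) * X j m := by
    rw [Complex.ofReal_sum]
    calc ∑ m ∈ Finset.Ico a b, ((‖w m‖ ^ 2 : ℝ) : ℂ)
        = ∑ m ∈ Finset.Ico a b, ∑ i ∈ s, ∑ j ∈ s, z i * conj (z j) * (conj (X i m) * X j m) := by
          refine Finset.sum_congr rfl fun m _ => ?_
          rw [hsq]
          have e1 : w m = ∑ j ∈ s, conj (z j) * X j m := by rw [hw]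
          rw [e1, map_sum, Finset.sum_mul_sum]
          refine Finset.sum_congr rfl fun i _ => Finset.sum_congr rfl fun j _ => ?_
          rw [map_mul, Complex.conj_conj]
          ring
      _ = ∑ i ∈ s, ∑ m ∈ Finset.Ico a b, ∑ j ∈ s, z i * conj (z j) * (conj (X i m) * X j m) := Finset.sum_comm
      _ = ∑ i ∈ s, ∑ j ∈ s, ∑ m ∈ Finset.Ico a b, z i * conj (z j) * (conj (X i m) * X j m) :=
          Finset.sum_congr rfl fun i _ => Finset.sum_comm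
      _ = _ := by
          refine Finset.sum_congr rfl fun i _ => Finset.sum_congr rfl fun j _ => ?_
          rw [Finset.mul_sum]
  have h5 : ∀ i j, ‖∑ m ∈ Finset.Ico a b, conj (X i m) * X j m‖ ≤
      (if i = j then (b : ℝ) - a else 0) + (r i : ℝ) * r j := by
    intro i j
    by_cases hij : i = j
    · rw [if_pos hij]
      have e1 : ‖∑ m ∈ Finset.Ico a b, conj (X i m) * X j m‖ ≤ ∑ _m ∈ Finset.Ico a b, (1 : ℝ) := by
        refine norm_sum_le_of_le _ fun m _ => ?_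
        rw [norm_mul, RCLike.norm_conj]
        calc ‖X i m‖ * ‖X j m‖ ≤ 1 * 1 := mul_le_mul (hF.bd i m) (hF.bd j m) (norm_nonneg _) zero_le_one
          _ = 1 := one_mul 1
      have e2 : ∑ _m ∈ Finset.Ico a b, (1 : ℝ) = (b : ℝ) - a := by
        rw [Finset.sum_const, Nat.card_Ico, nsmul_eq_mul, mul_one, Nat.cast_sub hab]
      have e3 : 0 ≤ (r i : ℝ) * r j := by positivity
      linarith
    · rw [if_neg hij, zero_add]
      exact hF.ort i j hij a b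
  have h6 : ∑ m ∈ Finset.Ico a b, ‖w m‖ ^ 2 ≤ ((b : ℝ) - a) * Z + (∑ i ∈ s, (r i : ℝ) * ‖z i‖) ^ 2 := by
    have e0 : 0 ≤ ∑ m ∈ Finset.Ico a b, ‖w m‖ ^ 2 := by positivity
    calc ∑ m ∈ Finset.Ico a b, ‖w m‖ ^ 2 = ‖((∑ m ∈ Finset.Ico a b, ‖w m‖ ^ 2 : ℝ) : ℂ)‖ := by
          rw [Complex.norm_real, Real.norm_of_nonneg e0]
      _ = ‖∑ i ∈ s, ∑ j ∈ s, z i * conj (z j) * ∑ m ∈ Finset.Ico a b, conj (X i m) * X j m‖ := by rw [h4]
      _ ≤ ∑ i ∈ s, ∑ j ∈ s, ‖z i‖ * ‖z j‖ * ((if i = j then (b : ℝ) - a else 0) + (r i : ℝ) * r j) := by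
          refine norm_sum_le_of_le _ fun i _ => norm_sum_le_of_le _ fun j _ => ?_
          rw [norm_mul, norm_mul, RCLike.norm_conj]
          exact mul_le_mul_of_nonneg_left (h5 i j) (by positivity)
      _ = ∑ i ∈ s, (‖z i‖ ^ 2 * ((b : ℝ) - a) + (r i : ℝ) * ‖z i‖ * ∑ j ∈ s, (r j : ℝ) * ‖z j‖) := by
          refine Finset.sum_congr rfl fun i hi => ?_
          have e1 : ∀ j ∈ s, ‖z i‖ * ‖z j‖ * ((if i = j then (b : ℝ) - a else 0) + (r i : ℝ) * r j) =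
              (if i = j then ‖z i‖ ^ 2 * ((b : ℝ) - a) else 0) + (r i : ℝ) * ‖z i‖ * ((r j : ℝ) * ‖z j‖) := by
            intro j _
            by_cases hij : i = j
            · subst hij
              rw [if_pos rfl, if_pos rfl]
              ring
            · rw [if_neg hij, if_neg hij]
              ring
          rw [Finset.sum_congr rfl e1, Finset.sum_add_distrib, Finset.sum_ite_eq, if_pos hi, Finset.mul_sum]
      _ = _ := by
          rw [Finset.sum_add_distrib, ← Finset.sum_mul, ← Finset.sum_mul, ← hZ]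
          ring
  have h7 : (∑ i ∈ s, (r i : ℝ) * ‖z i‖) ^ 2 ≤ R ^ 4 * Z := by
    calc (∑ i ∈ s, (r i : ℝ) * ‖z i‖) ^ 2 ≤ (∑ i ∈ s, (r i : ℝ) ^ 2) * ∑ i ∈ s, ‖z i‖ ^ 2 :=
          Finset.sum_mul_sq_le_sq_mul_sq _ _ _
      _ ≤ R ^ 4 * Z := by
          rw [← hZ]
          exact mul_le_mul_of_nonneg_right (LSI_cnt r hF.cnt R hR s hs) hZ0
  have h8 : Z ^ 2 ≤ U * (((b : ℝ) - a + R ^ 4) * Z) := by
    refine h3.trans (mul_le_mul_of_nonneg_left ?_ hU0)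
    linarith
  rcases eq_or_lt_of_le hZ0 with h9 | h9
  · rw [← h9]
    have h10 : 0 ≤ (b : ℝ) - a + R ^ 4 := by
      have : 0 ≤ R ^ 4 := by positivity
      linarith
    positivity
  · have h10 : Z * Z ≤ (((b : ℝ) - a + R ^ 4) * U) * Z := by
      calc Z * Z = Z ^ 2 := by ring
        _ ≤ _ := h8
        _ = _ := by ring
    exact le_of_mul_le_mul_right h10 h9

end Pool.Agent.TW
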